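import Pool.Agent.TTC.StmtsF

set_option autoImplicit false

/-!
# Squad TTC, row MD6: total degrees
-/

namespace Pool.Agent.TTC.H36

open Polynomial

/-- all coefficients have total degree at most k -/
def CD {σ : Type} (k : ℕ) (p : (MvPolynomial σ ℤ)[X]) : Prop := ∀ n, (p.coeff n).totalDegree ≤ k

theorem cd_add {σ : Type} {k : ℕ} {p q : (MvPolynomial σ ℤ)[X]} (hp : CD k p) (hq : CD k q) :
    CD k (p + q) := by
  intro n
  rw [coeff_add]
  exact (MvPolynomial.totalDegree_add _ _).trans (max_le (hp n) (hq n))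

theorem td_nat {σ : Type} (c : ℕ) : ((c : MvPolynomial σ ℤ)).totalDegree = 0 := by
  have h : (c : MvPolynomial σ ℤ) = MvPolynomial.C (c : ℤ) := by simp
  rw [h, MvPolynomial.totalDegree_C]

theorem cd_der {σ : Type} {k : ℕ} {p : (MvPolynomial σ ℤ)[X]} (hp : CD k p) :
    CD k (derivative p) := by
  intro n
  rw [coeff_derivative]
  refine (MvPolynomial.totalDegree_mul _ _).trans ?_
  have h : ((n : MvPolynomial σ ℤ) + 1).totalDegree = 0 := by
    have := td_nat (σ := σ) (n + 1)
    push_cast at this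
    exact this
  rw [h]
  exact hp _

theorem cd_term {σ : Type} {k : ℕ} {P : MvPolynomial σ ℤ} (hP : P.totalDegree ≤ k) (n : ℕ) :
    CD k (C P * X ^ n) := by
  intro i
  rw [coeff_C_mul_X_pow]
  split_ifs
  · exact hP
  · simp

theorem cd_C {σ : Type} {k : ℕ} {P : MvPolynomial σ ℤ} (hP : P.totalDegree ≤ k) : CD k (C P) := by
  have := cd_term hP 0
  simpa using this

theorem cd_zero {σ : Type} (k : ℕ) : CD k (0 : (MvPolynomial σ ℤ)[X]) := by
  intro n
  simp

theorem cd_one {σ : Type} (k : ℕ) : CD k (1 : (MvPolynomial σ ℤ)[X]) := by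
  have h : CD k (C (1 : MvPolynomial σ ℤ)) := cd_C (by simp)
  rwa [C_1] at h

theorem cd_neg {σ : Type} {k : ℕ} {p : (MvPolynomial σ ℤ)[X]} (hp : CD k p) : CD k (-p) := by
  intro n
  rw [coeff_neg, MvPolynomial.totalDegree_neg]
  exact hp n

theorem cd_mul {σ : Type} {k l : ℕ} {p q : (MvPolynomial σ ℤ)[X]} (hp : CD k p) (hq : CD l q) :
    CD (k + l) (p * q) := by
  intro n
  rw [coeff_mul]
  refine MvPolynomial.totalDegree_finsetSum_le fun x _ => ?_
  exact (MvPolynomial.totalDegree_mul _ _).trans (Nat.add_le_add (hp _) (hq _))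

theorem cd_sum {σ ι : Type} {k : ℕ} (s : Finset ι) (f : ι → (MvPolynomial σ ℤ)[X])
    (h : ∀ i ∈ s, CD k (f i)) : CD k (∑ i ∈ s, f i) := by
  intro n
  rw [finsetSum_coeff]
  exact MvPolynomial.totalDegree_finsetSum_le fun i hi => h i hi n

theorem cd_prod {σ ι : Type} {k : ℕ} (s : Finset ι) (f : ι → (MvPolynomial σ ℤ)[X])
    (h : ∀ i, CD k (f i)) : CD (s.card * k) (∏ i ∈ s, f i) := by
  classical
  induction s using Finset.induction_on with
  | empty =>
    rw [Finset.prod_empty]
    exact cd_one _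
  | insert a s ha ih =>
    rw [Finset.prod_insert ha, Finset.card_insert_of_notMem ha]
    have e : (s.card + 1) * k = k + s.card * k := by ring
    rw [e]
    exact cd_mul (h a) ih

theorem cd_sext {σ : Type} {k : ℕ} {F : Fin 7 → MvPolynomial σ ℤ}
    (hF : ∀ i, (F i).totalDegree ≤ k) : CD k (sext F) := by
  unfold sext
  have h1 : CD k (C (F 5) * X) := by
    have := cd_term (hF 5) 1
    simpa using this
  exact cd_add (cd_add (cd_add (cd_add (cd_add (cd_add (cd_term (hF 0) 6) (cd_term (hF 1) 5))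
    (cd_term (hF 2) 4)) (cd_term (hF 3) 3)) (cd_term (hF 4) 2)) h1) (cd_C (hF 6))

/-- all coefficients satisfy `CD k` -/
def CE {σ : Type} (k : ℕ) (p : (MvPolynomial σ ℤ)[X][X]) : Prop := ∀ n, CD k (p.coeff n)

theorem ce_map {σ : Type} {k : ℕ} {p : (MvPolynomial σ ℤ)[X]} (hp : CD k p) :
    CE k (p.map (C : MvPolynomial σ ℤ →+* (MvPolynomial σ ℤ)[X])) := by
  intro n
  rw [coeff_map]
  exact cd_C (hp n)

theorem res_ce {σ : Type} {k : ℕ} {p q : (MvPolynomial σ ℤ)[X][X]} (hp : CE k p) (hq : CE k q)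
    (a b : ℕ) : CD ((a + b) * k) (resultant p q a b) := by
  classical
  have hent : ∀ i j, CD k (sylvester p q a b i j) := by
    intro i j
    unfold sylvester
    rw [Matrix.of_apply]
    induction j using Fin.addCases with
    | left j =>
      rw [Fin.addCases_left]
      split_ifs
      · exact hq _
      · exact cd_zero k
    | right j =>
      rw [Fin.addCases_right]
      split_ifs
      · exact hp _
      · exact cd_zero k
  unfold resultant
  rw [Matrix.det_apply]
  refine cd_sum _ _ fun σ' _ => ?_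
  have h1 : CD ((a + b) * k) (∏ i, sylvester p q a b (σ' i) i) := by
    have := cd_prod Finset.univ (fun i => sylvester p q a b (σ' i) i) (fun i => hent _ _)
    rwa [Finset.card_univ, Fintype.card_fin] at this
  rcases Int.units_eq_one_or (Equiv.Perm.sign σ') with h | h
  · rw [h, one_smul]
    exact h1
  · rw [h]
    have : ((-1 : ℤˣ) • ∏ i, sylvester p q a b (σ' i) i) = -∏ i, sylvester p q a b (σ' i) i := by
      simp [Units.smul_def]
    rw [this]
    exact cd_neg h1

theorem md6 : Md6Stmt := by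
  intro m k F hF
  have hq := cd_sext hF
  have h1 := ce_map (cd_der hq)
  have h2 : CE k (C (X : (MvPolynomial (Fin (m + 1)) ℤ)[X]) -
      (sext F).map (C : MvPolynomial (Fin (m + 1)) ℤ →+* (MvPolynomial (Fin (m + 1)) ℤ)[X])) := by
    intro n
    rw [coeff_sub, sub_eq_add_neg]
    refine cd_add ?_ (cd_neg (ce_map hq n))
    rw [coeff_C]
    split_ifs
    · have := cd_term (σ := Fin (m + 1)) (k := k) (P := 1) (by simp) 1
      simpa using this
    · exact cd_zero k
  have h3 : CD (11 * k) (crit F) := res_ce h1 h2 5 6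
  constructor
  · unfold d6
    exact (h3 0).trans (Nat.mul_le_mul_right k (by norm_num))
  · unfold e6
    refine (MvPolynomial.totalDegree_mul _ _).trans ?_
    have h4 : (6 * F 0).totalDegree ≤ k := by
      refine (MvPolynomial.totalDegree_mul _ _).trans ?_
      have h5 : ((6 : MvPolynomial (Fin (m + 1)) ℤ)).totalDegree = 0 := by
        have := td_nat (σ := Fin (m + 1)) 6
        exact_mod_cast this
      rw [h5]
      have := hF 0
      omega
    have h6 := h3 1
    omega

end Pool.Agent.TTC.H36
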